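import Mathlib

/-!
# Project HG: uniform asymptotics of the density and of the pressure, pure real analysis
-/

set_option autoImplicit false

namespace Pool.Agent.N490.HG

open Filter Topology

/-- a function whose increments are bounded below by a quadratic term is increasing -/
lemma incr {g : ℝ → ℝ} {K X : ℝ} (hX : 0 ≤ X) (hK : 0 ≤ K)
    (h : ∀ x x', 0 ≤ x → x ≤ x' → x' ≤ X → g x - K * (x' - x) ^ 2 ≤ g x') : g 0 ≤ g X := by
  have key : ∀ J : ℕ, 1 ≤ J → g 0 ≤ g X + K * X ^ 2 / J := by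
    intro J hJ
    have hJ0 : (0 : ℝ) < J := by exact_mod_cast hJ
    have h1 : ∀ j : ℕ, j ≤ J → g 0 - K * (j * (X / J) ^ 2) ≤ g (j * (X / J)) := by
      intro j
      induction j with
      | zero => intro _; simp
      | succ j ih =>
        intro hj
        have h2 := ih (by omega)
        have hjr : ((j : ℝ) + 1) ≤ J := by exact_mod_cast hj
        have hXJ : 0 ≤ X / J := by positivity
        have h3 := h (j * (X / J)) (((j + 1 : ℕ) : ℝ) * (X / J)) (by positivity)
          (by push_cast; nlinarith) (by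
            push_cast
            calc ((j : ℝ) + 1) * (X / J) ≤ J * (X / J) := mul_le_mul_of_nonneg_right hjr hXJ
              _ = X := by field_simp)
        have e : (((j + 1 : ℕ) : ℝ) * (X / J) - j * (X / J)) = X / J := by push_cast; ring
        rw [e] at h3
        push_cast at h3 ⊢
        nlinarith
    have h4 := h1 J le_rfl
    have e1 : (J : ℝ) * (X / J) = X := by field_simp
    have e2 : K * ((J : ℝ) * (X / J) ^ 2) = K * X ^ 2 / J := by field_simp
    rw [e1, e2] at h4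
    linarith
  refine le_of_forall_pos_le_add fun e he => ?_
  obtain ⟨J, hJ⟩ := exists_nat_gt (K * X ^ 2 / e)
  have hJ1 : 1 ≤ J := by
    by_contra h0
    have : J = 0 := by omega
    rw [this] at hJ
    have h2 : 0 ≤ K * X ^ 2 / e := by positivity
    simp at hJ
    linarith
  have hJ0 : (0 : ℝ) < J := by exact_mod_cast hJ1
  have h2 := key J hJ1
  have h3 : K * X ^ 2 / J ≤ e := by
    rw [div_le_iff₀ hJ0]
    rw [div_lt_iff₀ he] at hJ
    linarith
  linarith

/-- `log x ≥ 1 - 1 / x` for `x = b / a` -/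
lemma log_ratio {a b : ℝ} (ha : 0 < a) (hb : 0 < b) : (b - a) / b ≤ Real.log (b / a) := by
  have h := Real.one_sub_inv_le_log_of_pos (div_pos hb ha)
  have e : 1 - (b / a)⁻¹ = (b - a) / b := by
    field_simp
  rw [e] at h
  exact h

/-- the lower bound of the pressure -/
lemma lower {y p : ℝ → ℝ} {ε₁ W : ℝ} (h0 : 0 ≤ ε₁) (h1 : ε₁ ≤ 1)
    (H2 : ∀ w, 0 < w → 0 ≤ p w)
    (H3 : ∀ w, 0 < w → w ≤ W → (1 - ε₁) * w ≤ y w)
    (H5 : ∀ a b, 0 < a → a ≤ b → (Real.log (b / a) + (b - a)) * y a ≤ p b - p a)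
    {w : ℝ} (hw : 0 < w) (hwW : w ≤ W) : (1 - ε₁) * (w + w ^ 2 / 2) ≤ p w := by
  have key : ∀ a, 0 < a → a ≤ w → (1 - ε₁) * (w + w ^ 2 / 2) ≤ p w + (1 - ε₁) * (a + a ^ 2 / 2) := by
    intro a ha haw
    have h := incr (g := fun x => p (a + x) - (1 - ε₁) * ((a + x) + (a + x) ^ 2 / 2)) (K := 1 / a + 1)
      (X := w - a) (by linarith) (by positivity) (fun x x' hx hxx' hx'X => by
        have hax : 0 < a + x := by linarith
        have hax' : 0 < a + x' := by linarith
        have k1 := H5 (a + x) (a + x') hax (by linarith)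
        have k2 := H3 (a + x) hax (by linarith)
        have k3 := log_ratio hax hax'
        have e0 : a + x' - (a + x) = x' - x := by ring
        rw [e0] at k1 k3
        have k4 : 0 ≤ (x' - x) / (a + x') := div_nonneg (by linarith) hax'.le
        have k5 : ((x' - x) / (a + x') + (x' - x)) * ((1 - ε₁) * (a + x)) ≤ p (a + x') - p (a + x) := by
          refine le_trans ?_ k1
          have k6 : 0 ≤ (1 - ε₁) * (a + x) := mul_nonneg (by linarith) hax.le
          calc ((x' - x) / (a + x') + (x' - x)) * ((1 - ε₁) * (a + x))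
              ≤ (Real.log ((a + x') / (a + x)) + (x' - x)) * ((1 - ε₁) * (a + x)) :=
                mul_le_mul_of_nonneg_right (by linarith) k6
            _ ≤ (Real.log ((a + x') / (a + x)) + (x' - x)) * y (a + x) :=
                mul_le_mul_of_nonneg_left k2 (by linarith)
        have k7 : (x' - x) / (a + x') * (a + x) = (x' - x) - (x' - x) ^ 2 / (a + x') := by
          field_simp
          ring
        have k8 : (x' - x) ^ 2 / (a + x') ≤ (x' - x) ^ 2 * (1 / a) := by
          rw [div_eq_mul_one_div]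
          exact mul_le_mul_of_nonneg_left (one_div_le_one_div_of_le ha (by linarith)) (sq_nonneg _)
        have k9 : 0 ≤ (x' - x) ^ 2 / (a + x') := div_nonneg (sq_nonneg _) hax'.le
        have k10 : (1 - ε₁) * ((x' - x) ^ 2 / (a + x') + (x' - x) ^ 2 / 2) ≤
            (x' - x) ^ 2 * (1 / a) + (x' - x) ^ 2 := by
          have : 0 ≤ (x' - x) ^ 2 / 2 := by positivity
          nlinarith
        have k11 : ((x' - x) / (a + x') + (x' - x)) * ((1 - ε₁) * (a + x)) =
            (1 - ε₁) * (((a + x') + (a + x') ^ 2 / 2) - ((a + x) + (a + x) ^ 2 / 2)) -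
              (1 - ε₁) * ((x' - x) ^ 2 / (a + x') + (x' - x) ^ 2 / 2) := by
          have : ((x' - x) / (a + x') + (x' - x)) * ((1 - ε₁) * (a + x)) =
            (1 - ε₁) * ((x' - x) / (a + x') * (a + x) + (x' - x) * (a + x)) := by ring
          rw [this, k7]
          ring
        have k12 : (1 / a + 1) * (x' - x) ^ 2 = (x' - x) ^ 2 * (1 / a) + (x' - x) ^ 2 := by ring
        show p (a + x) - (1 - ε₁) * ((a + x) + (a + x) ^ 2 / 2) - (1 / a + 1) * (x' - x) ^ 2 ≤
          p (a + x') - (1 - ε₁) * ((a + x') + (a + x') ^ 2 / 2)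
        rw [k12]
        linarith)
    have e1 : a + (w - a) = w := by ring
    simp only [add_zero, e1] at h
    have := H2 a ha
    linarith
  refine le_of_forall_pos_le_add fun e he => ?_
  obtain ⟨a, ha, ha1, ha2, ha3⟩ : ∃ a, 0 < a ∧ a ≤ w ∧ a ≤ 1 ∧ a ≤ e / 2 :=
    ⟨min w (min 1 (e / 2)), by positivity, min_le_left _ _, (min_le_right _ _).trans (min_le_left _ _),
      (min_le_right _ _).trans (min_le_right _ _)⟩
  have h := key a ha ha1
  have h2 : (1 - ε₁) * (a + a ^ 2 / 2) ≤ a + a ^ 2 / 2 :=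
    mul_le_of_le_one_left (by positivity) (by linarith)
  have h3 : a ^ 2 ≤ a := by nlinarith
  linarith

/-- the constant of the range -/
lemma X_bounds : 0 < (1 - Real.log 2) / 2 ∧ (1 - Real.log 2) / 2 ≤ 1 / 2 := by
  have h1 := Real.log_two_lt_d9
  have h2 := Real.log_two_gt_d9
  constructor <;> linarith

/-- large `n` -/
lemma large {t δ : ℝ} (ht : 0 < t) (hδ : 0 < δ) : ∀ᶠ n : ℕ in atTop,
    Real.pi * ((n : ℝ) + 1) * Real.exp 1 * Real.exp (-(t * n)) ≤ δ ∧ 2 ≤ n := by
  have hc : Tendsto (fun n : ℕ => t * (n : ℝ)) atTop atTop :=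
    Tendsto.const_mul_atTop ht tendsto_natCast_atTop_atTop
  have h1 : Tendsto (fun n : ℕ => Real.exp (-(t * n))) atTop (𝓝 0) := by
    have := (Real.tendsto_pow_mul_exp_neg_atTop_nhds_zero 0).comp hc
    simpa [Function.comp_def] using this
  have h2 : Tendsto (fun n : ℕ => t * n * Real.exp (-(t * n))) atTop (𝓝 0) := by
    have := (Real.tendsto_pow_mul_exp_neg_atTop_nhds_zero 1).comp hc
    simpa [Function.comp_def] using this
  have h4 : Tendsto (fun n : ℕ => Real.pi * ((n : ℝ) + 1) * Real.exp 1 * Real.exp (-(t * n))) atTop (𝓝 0) := by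
    have h5 := (h2.const_mul (Real.pi * Real.exp 1 / t)).add (h1.const_mul (Real.pi * Real.exp 1))
    simp only [mul_zero, add_zero] at h5
    refine h5.congr fun n => ?_
    field_simp
  filter_upwards [h4.eventually_le_const hδ, eventually_ge_atTop 2] with n a1 a2
  exact ⟨a1, a2⟩

theorem asm2_aux {ε : ℝ} (hε : 0 < ε) (hεX : ε ≤ (1 - Real.log 2) / 4) :
    ∃ ε₁ : ℝ, 0 < ε₁ ∧ ∃ n₀ : ℕ, ∀ n : ℕ, n₀ ≤ n →
  ∀ y p : ℝ → ℝ,
  (∀ w, 0 < w → 0 < y w) →
  (∀ w, 0 < w → 0 ≤ p w) →
  (∀ w, 0 < w → w * Real.exp w ≤ Real.exp ((1 - Real.log 2) / 2 * n) → (1 - ε₁) * w ≤ y w) →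
  (∀ w, 0 < w → p w ≤ w + w ^ 2 / 2 +
    Real.pi * (n + 1) * Real.exp (-((1 - Real.log 2) / 2) * n) * (w * Real.exp w)) →
  (∀ a b, 0 < a → a ≤ b → (Real.log (b / a) + (b - a)) * y a ≤ p b - p a ∧
    p b - p a ≤ (Real.log (b / a) + (b - a)) * y b) →
  ∀ w, 0 < w → w * Real.exp w ≤ Real.exp (((1 - Real.log 2) / 2 - ε) * n) →
    |y w - w| ≤ ε * w ∧ |p w - (w + w ^ 2 / 2)| ≤ ε * (w + w ^ 2 / 2) := by
  set τ : ℝ := ε / 4 with hτ
  have hτ0 : 0 < τ := by positivity
  obtain ⟨hX0, hX1⟩ := X_bounds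
  set X : ℝ := (1 - Real.log 2) / 2 with hX
  have hεX' : ε ≤ X / 2 := by rw [hX]; linarith
  have hε1 : ε ≤ 1 / 4 := by linarith
  have hτ1 : τ ≤ 1 / 16 := by linarith
  set δ : ℝ := τ ^ 2 / 8 with hδ
  have hδ0 : 0 < δ := by positivity
  obtain ⟨n₀, hn₀⟩ := eventually_atTop.mp (large (half_pos hε) hδ0)
  refine ⟨τ ^ 2 / 2, by positivity, n₀, fun n hn y p H1 H2 H3 H4 H5 w hw hwX => ?_⟩
  obtain ⟨a1, a2⟩ := hn₀ n hn
  have hn2 : (2 : ℝ) ≤ n := by exact_mod_cast a2
  have hn0 : (0 : ℝ) < n := by linarith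
  -- upper bound of the pressure
  have hU : ∀ v, 0 < v → v * Real.exp v ≤ Real.exp ((X - ε / 2) * n) → p v ≤ (1 + δ) * (v + v ^ 2 / 2) := by
    intro v hv hvX
    have h1 := H4 v hv
    have h2 : Real.pi * (n + 1) * Real.exp (-X * n) * Real.exp v ≤ δ := by
      refine le_trans ?_ a1
      have hpn : 0 ≤ Real.pi * ((n : ℝ) + 1) := mul_nonneg Real.pi_pos.le (by linarith)
      rw [mul_assoc, mul_assoc (Real.pi * ((n : ℝ) + 1)) (Real.exp 1)]
      refine mul_le_mul_of_nonneg_left ?_ hpn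
      rcases le_or_gt v 1 with h | h
      · rw [← Real.exp_add, ← Real.exp_add, Real.exp_le_exp]
        have : ε / 2 * n ≤ X * n := mul_le_mul_of_nonneg_right (by linarith) hn0.le
        linarith
      · have h3 : Real.exp v ≤ Real.exp ((X - ε / 2) * n) := by
          refine le_trans ?_ hvX
          exact le_mul_of_one_le_left (Real.exp_pos v).le h.le
        calc Real.exp (-X * n) * Real.exp v ≤ Real.exp (-X * n) * Real.exp ((X - ε / 2) * n) :=
              mul_le_mul_of_nonneg_left h3 (Real.exp_pos _).le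
          _ = Real.exp (-(ε / 2 * n)) := by
              rw [← Real.exp_add]
              congr 1
              ring
          _ ≤ Real.exp 1 * Real.exp (-(ε / 2 * n)) :=
              le_mul_of_one_le_left (Real.exp_pos _).le (Real.one_le_exp zero_le_one)
    have h3 : Real.pi * (n + 1) * Real.exp (-X * n) * (v * Real.exp v) ≤ δ * v := by
      calc Real.pi * (n + 1) * Real.exp (-X * n) * (v * Real.exp v) =
            (Real.pi * (n + 1) * Real.exp (-X * n) * Real.exp v) * v := by ring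
        _ ≤ δ * v := mul_le_mul_of_nonneg_right h2 hv.le
    have h4 : 0 ≤ δ * (v ^ 2 / 2) := by positivity
    linarith
  -- lower bound of the pressure
  have hL : (1 - τ ^ 2 / 2) * (w + w ^ 2 / 2) ≤ p w := by
    refine lower (W := w) (by positivity) (by nlinarith) H2 (fun v hv hvw => ?_)
      (fun a b ha hab => (H5 a b ha hab).1) hw le_rfl
    refine H3 v hv ?_
    calc v * Real.exp v ≤ w * Real.exp w := by
          have : Real.exp v ≤ Real.exp w := Real.exp_le_exp.2 hvw
          exact mul_le_mul hvw this (Real.exp_pos v).le hw.le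
      _ ≤ Real.exp ((X - ε) * n) := hwX
      _ ≤ Real.exp (X * n) := by
          rw [Real.exp_le_exp]
          exact mul_le_mul_of_nonneg_right (by linarith) hn0.le
  have hUw : p w ≤ (1 + δ) * (w + w ^ 2 / 2) := by
    refine hU w hw (hwX.trans ?_)
    rw [Real.exp_le_exp]
    exact mul_le_mul_of_nonneg_right (by linarith) hn0.le
  -- the lower bound of the density
  have hyL : (1 - τ ^ 2 / 2) * w ≤ y w := by
    refine H3 w hw (hwX.trans ?_)
    rw [Real.exp_le_exp]
    exact mul_le_mul_of_nonneg_right (by linarith) hn0.le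
  -- the upper bound of the density
  have hwn : w ≤ 1 + n := by
    rcases le_or_gt w 1 with h | h
    · linarith
    · have h3 : Real.exp w ≤ Real.exp ((X - ε) * n) := by
        refine le_trans ?_ hwX
        exact le_mul_of_one_le_left (Real.exp_pos w).le h.le
      rw [Real.exp_le_exp] at h3
      have : (X - ε) * n ≤ 1 * n := mul_le_mul_of_nonneg_right (by linarith) hn0.le
      linarith
  have hb : p ((1 + τ) * w) ≤ (1 + δ) * ((1 + τ) * w + ((1 + τ) * w) ^ 2 / 2) := by
    refine hU _ (by positivity) ?_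
    have h1 : 1 + τ ≤ Real.exp τ := by
      have := Real.add_one_le_exp τ
      linarith
    calc (1 + τ) * w * Real.exp ((1 + τ) * w) = (1 + τ) * (w * Real.exp w) * Real.exp (τ * w) := by
          have : (1 + τ) * w = w + τ * w := by ring
          rw [this, Real.exp_add]
          ring
      _ ≤ Real.exp τ * Real.exp ((X - ε) * n) * Real.exp (τ * w) := by
          refine mul_le_mul_of_nonneg_right ?_ (Real.exp_pos _).le
          exact mul_le_mul h1 hwX (by positivity) (Real.exp_pos _).le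
      _ = Real.exp (τ + (X - ε) * n + τ * w) := by rw [Real.exp_add, Real.exp_add]
      _ ≤ Real.exp ((X - ε / 2) * n) := by
          rw [Real.exp_le_exp]
          have h2 : τ * w ≤ τ * (1 + n) := mul_le_mul_of_nonneg_left hwn hτ0.le
          have h3 : τ * (2 + n) ≤ ε / 2 * n := by
            rw [hτ]
            nlinarith
          nlinarith
  have h5 := (H5 w ((1 + τ) * w) hw (by nlinarith)).1
  have hlog : τ / (1 + τ) ≤ Real.log ((1 + τ) * w / w) := by
    have h := log_ratio hw (show (0 : ℝ) < (1 + τ) * w by positivity)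
    refine le_trans (le_of_eq ?_) h
    field_simp
    ring
  have hy0 := H1 w hw
  have h6 : τ / (1 + τ) * (1 + w) * y w ≤ p ((1 + τ) * w) - p w := by
    refine le_trans ?_ h5
    refine mul_le_mul_of_nonneg_right ?_ hy0.le
    have h7 : τ / (1 + τ) ≤ τ := div_le_self hτ0.le (by linarith)
    have h8 : τ / (1 + τ) * w ≤ τ * w := mul_le_mul_of_nonneg_right h7 hw.le
    have h9 : (1 + τ) * w - w = τ * w := by ring
    rw [h9]
    linarith
  have h7 : p ((1 + τ) * w) - p w ≤ τ * w * ((1 + τ) * (1 + w)) := by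
    have h8 : δ * ((1 + τ) * w + ((1 + τ) * w) ^ 2 / 2) ≤ τ ^ 2 / 2 * (w + w ^ 2 / 2) := by
      have h9 : (1 + τ) * w + ((1 + τ) * w) ^ 2 / 2 ≤ 4 * (w + w ^ 2 / 2) := by
        have : (1 + τ) ^ 2 ≤ 4 := by nlinarith
        have h10 : (1 + τ) ^ 2 * w ^ 2 ≤ 4 * w ^ 2 := mul_le_mul_of_nonneg_right this (sq_nonneg w)
        nlinarith
      calc δ * ((1 + τ) * w + ((1 + τ) * w) ^ 2 / 2) ≤ δ * (4 * (w + w ^ 2 / 2)) :=
            mul_le_mul_of_nonneg_left h9 hδ0.le
        _ = τ ^ 2 / 2 * (w + w ^ 2 / 2) := by rw [hδ]; ring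
    nlinarith
  have hyU : y w ≤ (1 + τ) ^ 2 * w := by
    have h8 := h6.trans h7
    have h9 : 0 < τ / (1 + τ) * (1 + w) := by positivity
    have h10 : τ * w * ((1 + τ) * (1 + w)) = τ / (1 + τ) * (1 + w) * ((1 + τ) ^ 2 * w) := by
      field_simp
    rw [h10] at h8
    exact le_of_mul_le_mul_left h8 h9
  have ht2 : τ ^ 2 / 2 ≤ ε := by nlinarith
  have hδε : δ ≤ ε := by nlinarith
  have ht3 : (1 + τ) ^ 2 ≤ 1 + ε := by nlinarith
  have hΦ : 0 ≤ w + w ^ 2 / 2 := by positivity
  constructor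
  · rw [abs_le]
    constructor
    · nlinarith
    · nlinarith
  · rw [abs_le]
    constructor
    · nlinarith
    · nlinarith

theorem asm2_pure : ∀ ε : ℝ, 0 < ε → ∃ ε₁ : ℝ, 0 < ε₁ ∧ ∃ n₀ : ℕ, ∀ n : ℕ, n₀ ≤ n →
  ∀ y p : ℝ → ℝ,
  (∀ w, 0 < w → 0 < y w) →
  (∀ w, 0 < w → 0 ≤ p w) →
  (∀ w, 0 < w → w * Real.exp w ≤ Real.exp ((1 - Real.log 2) / 2 * n) → (1 - ε₁) * w ≤ y w) →
  (∀ w, 0 < w → p w ≤ w + w ^ 2 / 2 +
    Real.pi * (n + 1) * Real.exp (-((1 - Real.log 2) / 2) * n) * (w * Real.exp w)) →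
  (∀ a b, 0 < a → a ≤ b → (Real.log (b / a) + (b - a)) * y a ≤ p b - p a ∧
    p b - p a ≤ (Real.log (b / a) + (b - a)) * y b) →
  ∀ w, 0 < w → w * Real.exp w ≤ Real.exp (((1 - Real.log 2) / 2 - ε) * n) →
    |y w - w| ≤ ε * w ∧ |p w - (w + w ^ 2 / 2)| ≤ ε * (w + w ^ 2 / 2) := by
  intro ε hε
  have hX := X_bounds.1
  obtain ⟨ε₁, h1, n₀, h2⟩ := asm2_aux (ε := min ε ((1 - Real.log 2) / 4)) (lt_min hε (by linarith)) (min_le_right _ _)
  refine ⟨ε₁, h1, n₀, fun n hn y p H1 H2 H3 H4 H5 w hw hwX => ?_⟩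
  have h3 : min ε ((1 - Real.log 2) / 4) ≤ ε := min_le_left _ _
  obtain ⟨k1, k2⟩ := h2 n hn y p H1 H2 H3 H4 H5 w hw (hwX.trans (Real.exp_le_exp.2
    (mul_le_mul_of_nonneg_right (by linarith) (Nat.cast_nonneg n))))
  exact ⟨k1.trans (mul_le_mul_of_nonneg_right h3 hw.le), k2.trans (mul_le_mul_of_nonneg_right h3 (by positivity))⟩

end Pool.Agent.N490.HG
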