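import Pool.Agent.N549.HG.Stm3
import Pool.Agent.N490.HG.Asm2Pure

/-!
# Project HG: uniform asymptotics of the density and of the pressure
-/

set_option autoImplicit false

namespace Pool.Agent.N490.HG

theorem asm2 : Pool.Agent.N549.HG.S_ASM2 := asm2_pure

end Pool.Agent.N490.HG
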